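import Pool.Agent.Helper17.SA.St2

/-! Project SA, module KEY: invariance of the key. -/

set_option autoImplicit false

namespace Pool.Agent.Helper62.SA

open Equiv Pool.Agent.Helper17.SA

theorem list_sum_fin (m : ℕ) (f : ℕ → ℕ) :
    ((List.range m).map f).sum = ∑ i : Fin m, f i := by
  rw [Fin.sum_univ_eq_sum_range f m]
  rfl

theorem getD_lst (m : ℕ) (x : Perm (Fin m)) (i : Fin m) :
    (lst m x).getD (i : ℕ) 0 = (x i : ℕ) := by
  unfold lst
  rw [List.getD_eq_getElem _ _ (by rw [List.length_ofFn]; exact i.2), List.getElem_ofFn]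

theorem key_eq (m : ℕ) (x : Perm (Fin m)) :
    key m (lst m x) = ∑ i : Fin m, ∑ j : Fin m, 1000 ^ (5 * dd i j + dd (x i) (x j)) := by
  unfold key
  rw [list_sum_fin]
  refine Finset.sum_congr rfl fun i _ => ?_
  rw [list_sum_fin]
  refine Finset.sum_congr rfl fun j _ => ?_
  rw [getD_lst, getD_lst]

theorem pKEY : StKEY := by
  intro m x a b ha hb
  rw [key_eq, key_eq]
  rw [← Equiv.sum_comp b (fun i => ∑ j : Fin m, 1000 ^ (5 * dd i j + dd (x i) (x j)))]
  refine Finset.sum_congr rfl fun i _ => ?_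
  rw [← Equiv.sum_comp b (fun j : Fin m => 1000 ^ (5 * dd (b i) j + dd (x (b i)) (x j)))]
  refine Finset.sum_congr rfl fun j _ => ?_
  have h1 : dd (a (x (b i))) (a (x (b j))) = dd (x (b i)) (x (b j)) := ha _ _
  have h2 : dd (b i) (b j) = dd i j := hb i j
  rw [Perm.mul_apply, Perm.mul_apply, Perm.mul_apply, Perm.mul_apply, h1, h2]

end Pool.Agent.Helper62.SA
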