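import Mathlib
import Pool.Agent.Helper17.SA.St3

set_option autoImplicit false

namespace Pool.Agent.Helper62.SA.LF1

open Equiv Pool.Agent.Helper17.SA
open scoped Pointwise

lemma mem_conj_smul {G : Type*} [Group G] (H : Subgroup G) (x y : G) :
    y ∈ MulAut.conj x⁻¹ • H ↔ x * y * x⁻¹ ∈ H := by
  rw [Subgroup.mem_pointwise_smul_iff_inv_smul_mem, ← map_inv, inv_inv]
  rfl

/-- The intersection of all Sylow `q`-subgroups is normal. -/
lemma core_normal (G : Type*) [Group G] (q : ℕ) :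
    (⨅ Q : Sylow q G, (Q : Subgroup G)).Normal := by
  constructor
  intro n hn g
  rw [Subgroup.mem_iInf] at hn ⊢
  intro Q
  have h1 := hn (g⁻¹ • Q)
  have h2 : n ∈ MulAut.conj g⁻¹ • (Q : Subgroup G) := h1
  rwa [mem_conj_smul] at h2

/-- A Sylow subgroup meets a normal subgroup in a Sylow subgroup. -/
lemma sylow_inf {G : Type*} [Group G] [Finite G] {q : ℕ} (hq : q.Prime) (P : Sylow q G)
    (L : Subgroup G) (hL : L.Normal) :
    ∃ S : Sylow q L, (S : Subgroup L) = (P : Subgroup G).subgroupOf L := by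
  have : Fact q.Prime := ⟨hq⟩
  have hp : IsPGroup q ((P : Subgroup G).subgroupOf L) := P.isPGroup'.comap_subtype
  have hidx : ¬ q ∣ ((P : Subgroup G).subgroupOf L).index := by
    intro hd
    have h1 : ((P : Subgroup G).subgroupOf L).index = (P : Subgroup G).relIndex L := rfl
    rw [h1, ← Subgroup.inf_relIndex_right] at hd
    -- `[L : P ∩ L] = [P L : P]`
    have h2 : ((P : Subgroup G) ⊓ L).relIndex P * (P : Subgroup G).relIndex (P ⊔ L) =
        ((P : Subgroup G) ⊓ L).relIndex (P ⊔ L) :=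
      Subgroup.relIndex_mul_relIndex _ _ _ inf_le_left le_sup_left
    have h3 : ((P : Subgroup G) ⊓ L).relIndex L * L.relIndex ((P : Subgroup G) ⊔ L) =
        ((P : Subgroup G) ⊓ L).relIndex (P ⊔ L) :=
      Subgroup.relIndex_mul_relIndex _ _ _ inf_le_right le_sup_right
    rw [Subgroup.relIndex_sup_right,
      ← Subgroup.inf_relIndex_left (P : Subgroup G) L] at h3
    have h4 : ((P : Subgroup G) ⊓ L).relIndex P ≠ 0 := Subgroup.index_ne_zero_of_finite
    have h5 : (P : Subgroup G).relIndex (P ⊔ L) = ((P : Subgroup G) ⊓ L).relIndex L := by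
      apply Nat.eq_of_mul_eq_mul_left (Nat.pos_of_ne_zero h4)
      rw [h2, ← h3, mul_comm]
    rw [← h5] at hd
    exact P.not_dvd_index (hd.trans (Subgroup.relIndex_dvd_index_of_le le_sup_left))
  exact ⟨hp.toSylow hidx, rfl⟩

/-- `h⁻¹ P h` and `P` are conjugate inside `L = (P ∩ L) N` by an element of `N`. -/
lemma conj_in {G : Type*} [Group G] [Finite G] {q : ℕ} (hq : q.Prime) (P : Sylow q G)
    (N L : Subgroup G) (hL : L.Normal) (h : G)
    (hN : ∀ l ∈ L, ∃ r ∈ P, ∃ n ∈ N, r * n = l) :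
    ∃ c ∈ N, ∀ y ∈ L, h * y * h⁻¹ ∈ P → c * y * c⁻¹ ∈ P := by
  have : Fact q.Prime := ⟨hq⟩
  obtain ⟨S, hS⟩ := sylow_inf hq P L hL
  obtain ⟨S₂, hS₂⟩ := sylow_inf hq (h⁻¹ • P) L hL
  obtain ⟨k, hk⟩ := MulAction.exists_smul_eq L S₂ S
  obtain ⟨r, hr, c, hc, hrc⟩ := hN k k.2
  refine ⟨c, hc, fun y hy hyP => ?_⟩
  have h4 : (⟨y, hy⟩ : L) ∈ (S₂ : Subgroup L) := by
    rw [hS₂, Subgroup.mem_subgroupOf]
    have h5 : y ∈ MulAut.conj h⁻¹ • (P : Subgroup G) := by
      rw [mem_conj_smul]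
      exact hyP
    exact h5
  have h5 : k * ⟨y, hy⟩ * k⁻¹ ∈ (S : Subgroup L) := by
    rw [← hk]
    exact Subgroup.smul_mem_pointwise_smul _ (MulAut.conj k) _ h4
  rw [hS, Subgroup.mem_subgroupOf] at h5
  have h6 : (k : G) * y * (k : G)⁻¹ ∈ (P : Subgroup G) := h5
  rw [← hrc] at h6
  have h7 := (P : Subgroup G).mul_mem ((P : Subgroup G).mul_mem
    ((P : Subgroup G).inv_mem hr) h6) hr
  have h8 : r⁻¹ * (r * c * y * (r * c)⁻¹) * r = c * y * c⁻¹ := by group
  rw [h8] at h7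
  exact h7

/-- A normal subgroup of elements commuting with `N`, with `q`-power order modulo `N`. -/
lemma cent_mem {G : Type*} [Group G] (q : ℕ) (N L : Subgroup G)
    (hN : N.Normal) (hL : L.Normal) (hc : ∀ m ∈ N, (∀ m' ∈ N, m * m' = m' * m) → m = 1)
    (hp : ∀ l ∈ L, ∃ k : ℕ, l ^ q ^ k ∈ N) (y : G) (hy : y ∈ L) (hyN : ∀ m ∈ N, y * m = m * y)
    (Q : Sylow q G) : y ∈ Q := by
  let K : Subgroup G :=
    { carrier := {a | a ∈ L ∧ ∀ b ∈ N, a * b = b * a}
      one_mem' := ⟨L.one_mem, fun b _ => by rw [one_mul, mul_one]⟩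
      mul_mem' := by
        rintro a b ⟨ha, ha'⟩ ⟨hb, hb'⟩
        refine ⟨L.mul_mem ha hb, fun c hc => ?_⟩
        rw [mul_assoc, hb' c hc, ← mul_assoc, ha' c hc, mul_assoc]
      inv_mem' := by
        rintro a ⟨ha, ha'⟩
        exact ⟨L.inv_mem ha, fun c hc => ((show Commute a c from ha' c hc).inv_left).eq⟩ }
  have hK : K.Normal := by
    constructor
    rintro a ⟨ha, ha'⟩ g
    refine ⟨hL.conj_mem a ha g, fun c hc => ?_⟩
    have h1 : g⁻¹ * c * g ∈ N := by
      have := hN.conj_mem c hc g⁻¹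
      rwa [inv_inv] at this
    calc g * a * g⁻¹ * c = g * (a * (g⁻¹ * c * g)) * g⁻¹ := by group
      _ = g * ((g⁻¹ * c * g) * a) * g⁻¹ := by rw [ha' _ h1]
      _ = c * (g * a * g⁻¹) := by group
  have hKp : IsPGroup q K := by
    rintro ⟨a, ha⟩
    obtain ⟨k, hk⟩ := hp a ha.1
    refine ⟨k, Subtype.ext ?_⟩
    change a ^ q ^ k = 1
    refine hc _ hk fun m' hm' => ?_
    exact ((show Commute a m' from ha.2 m' hm').pow_left _).eq
  exact hKp.le_sylow_of_normal Q ⟨hy, hyN⟩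

theorem pLF1 : StLF1 := by
  intro G _ _ N hNn hcen ι _ p hp hinj hsync P
  have hfact : ∀ i, Fact (p i).Prime := fun i => ⟨hp i⟩
  have hsurj : Function.Surjective (QuotientGroup.mk' N) := QuotientGroup.mk'_surjective N
  obtain ⟨x, hx⟩ := hsync (fun i => (P i).mapSurjective hsurj)
  obtain ⟨h, rfl⟩ := hsurj x
  -- the normal subgroups `O i` and `L i`
  let O : ι → Subgroup (G ⧸ N) := fun i => ⨅ Q : Sylow (p i) (G ⧸ N), (Q : Subgroup (G ⧸ N))
  have hO : ∀ i, (O i).Normal := fun i => core_normal _ _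
  have hOP : ∀ i, ∀ Q : Sylow (p i) (G ⧸ N), O i ≤ Q := fun i Q => iInf_le _ Q
  have hOp : ∀ i, IsPGroup (p i) (O i) := fun i =>
    ((P i).mapSurjective hsurj).isPGroup'.to_le (hOP i _)
  let L : ι → Subgroup G := fun i => (O i).comap (QuotientGroup.mk' N)
  have hL : ∀ i, (L i).Normal := fun i => (hO i).comap _
  have hmem : ∀ i (y : G), y ∈ L i ↔ QuotientGroup.mk' N y ∈ O i := fun i y => Iff.rfl
  have hPL : ∀ i, ∀ l ∈ L i, ∃ r ∈ P i, ∃ n ∈ N, r * n = l := by
    intro i l hl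
    have h1 : QuotientGroup.mk' N l ∈ ((P i).mapSurjective hsurj : Subgroup (G ⧸ N)) :=
      hOP i _ ((hmem i l).1 hl)
    rw [Sylow.coe_mapSurjective] at h1
    obtain ⟨r, hr, hrl⟩ := h1
    refine ⟨r, hr, r⁻¹ * l, ?_, by group⟩
    rw [← QuotientGroup.eq]
    exact hrl
  choose c hcN hc using fun i => conj_in (hp i) (P i) N (L i) (hL i) h (hPL i)
  refine ⟨h, fun i => (P i : Subgroup G) ⊓ L i, c, hcN, fun i => ?_, ?_, ?_, ?_⟩
  · exact (P i).isPGroup'.to_le inf_le_left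
  · intro i j hij y hy z hz
    have hne : p i ≠ p j := fun hh => hij (hinj hh)
    have hdis : Disjoint (O i) (O j) := IsPGroup.disjoint_of_ne (p i) (p j) hne _ _ (hOp i) (hOp j)
    have hcomm := Subgroup.commute_of_normal_of_disjoint _ _ (hO i) (hO j) hdis _ _
      ((hmem i y).1 hy.2) ((hmem j z).1 hz.2)
    refine ⟨y * z * (z * y)⁻¹, ?_, by group⟩
    rw [← QuotientGroup.ker_mk' N, MonoidHom.mem_ker, map_mul, map_inv, map_mul, map_mul,
      hcomm.eq, mul_inv_cancel]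
  · intro n hn i y hy hyP
    have h1 : QuotientGroup.mk' N y ∈ ((P i).mapSurjective hsurj : Subgroup (G ⧸ N)) := by
      rw [Sylow.coe_mapSurjective]
      exact ⟨y, hy, rfl⟩
    have h2 : QuotientGroup.mk' N ((h * n) * y * (h * n)⁻¹) ∈
        ((P i).mapSurjective hsurj : Subgroup (G ⧸ N)) := by
      rw [Sylow.coe_mapSurjective]
      exact ⟨_, hyP, rfl⟩
    have hn1 : QuotientGroup.mk' N n = 1 := by
      rw [← MonoidHom.mem_ker, QuotientGroup.ker_mk']
      exact hn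
    rw [map_mul, map_mul, map_inv, map_mul, hn1, mul_one] at h2
    have h3 : QuotientGroup.mk' N y ∈ O i := by
      have h4 : QuotientGroup.mk' N y ∈ ((P i).mapSurjective hsurj : Subgroup (G ⧸ N)) ⊓
          MulAut.conj (QuotientGroup.mk' N h)⁻¹ •
            ((P i).mapSurjective hsurj : Subgroup (G ⧸ N)) := by
        refine ⟨h1, ?_⟩
        have h5 := (mem_conj_smul ((P i).mapSurjective hsurj : Subgroup (G ⧸ N))
          (QuotientGroup.mk' N h) (QuotientGroup.mk' N y)).2 h2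
        exact h5
      have h6 := hx i
      rw [h6] at h4
      exact h4
    have hyL : y ∈ L i := (hmem i y).2 h3
    have hy'L : n * y * n⁻¹ ∈ L i := (hL i).conj_mem y hyL n
    have h5 : h * (n * y * n⁻¹) * h⁻¹ ∈ P i := by
      have h6 : h * (n * y * n⁻¹) * h⁻¹ = (h * n) * y * (h * n)⁻¹ := by group
      rw [h6]
      exact hyP
    have h6 := hc i _ hy'L h5
    have h7 : c i * (n * y * n⁻¹) * (c i)⁻¹ = (c i * n) * y * (c i * n)⁻¹ := by group
    rw [h7] at h6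
    exact ⟨⟨hy, hyL⟩, ⟨h6, (hL i).conj_mem y hyL _⟩⟩
  · intro i y hy hyN Q
    refine cent_mem (p i) N (L i) hNn (hL i) hcen ?_ y hy.2 hyN Q
    intro l hl
    obtain ⟨k, hk⟩ := hOp i ⟨QuotientGroup.mk' N l, (hmem i l).1 hl⟩
    refine ⟨k, ?_⟩
    have h1 : (QuotientGroup.mk' N l) ^ p i ^ k = 1 := congrArg Subtype.val hk
    rw [← QuotientGroup.ker_mk' N, MonoidHom.mem_ker, map_pow]
    exact h1

end Pool.Agent.Helper62.SA.LF1
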