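import Mathlib
import Pool.Agent.Helper17.SA.St4
import Pool.Agent.Helper62.SA.M_LF1

set_option autoImplicit false

namespace Pool.Agent.Helper62.SA.LF3

open Equiv Pool.Agent.Helper17.SA Pool.Agent.Helper62.SA.LF1
open scoped Pointwise

/-- `h⁻¹ P h` and `P` are conjugate inside `L = (P ∩ L) N` by an element of `N`. -/
lemma conj_iff {G : Type*} [Group G] [Finite G] {q : ℕ} (hq : q.Prime) (P : Sylow q G)
    (N L : Subgroup G) (hL : L.Normal) (h : G)
    (hN : ∀ l ∈ L, ∃ r ∈ P, ∃ n ∈ N, r * n = l) :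
    ∃ c ∈ N, ∀ y ∈ L, (h * y * h⁻¹ ∈ P ↔ c * y * c⁻¹ ∈ P) := by
  have : Fact q.Prime := ⟨hq⟩
  obtain ⟨S, hS⟩ := sylow_inf hq P L hL
  obtain ⟨S₂, hS₂⟩ := sylow_inf hq (h⁻¹ • P) L hL
  obtain ⟨k, hk⟩ := MulAction.exists_smul_eq L S₂ S
  obtain ⟨r, hr, c, hc, hrc⟩ := hN k k.2
  refine ⟨c, hc, fun y hy => ?_⟩
  have h4 : (⟨y, hy⟩ : L) ∈ (S₂ : Subgroup L) ↔ h * y * h⁻¹ ∈ (P : Subgroup G) := by
    rw [hS₂, Subgroup.mem_subgroupOf]
    exact mem_conj_smul (P : Subgroup G) h y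
  have h5 : k * ⟨y, hy⟩ * k⁻¹ ∈ (S : Subgroup L) ↔ (⟨y, hy⟩ : L) ∈ (S₂ : Subgroup L) := by
    rw [← hk]
    exact Subgroup.smul_mem_pointwise_smul_iff (a := MulAut.conj k)
  have h6 : k * ⟨y, hy⟩ * k⁻¹ ∈ (S : Subgroup L) ↔
      (k : G) * y * (k : G)⁻¹ ∈ (P : Subgroup G) := by
    rw [hS, Subgroup.mem_subgroupOf]
    exact Iff.rfl
  have h7 : (k : G) * y * (k : G)⁻¹ ∈ (P : Subgroup G) ↔ c * y * c⁻¹ ∈ (P : Subgroup G) := by
    rw [← hrc]
    constructor
    · intro h8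
      have h9 := (P : Subgroup G).mul_mem ((P : Subgroup G).mul_mem
        ((P : Subgroup G).inv_mem hr) h8) hr
      have h10 : r⁻¹ * (r * c * y * (r * c)⁻¹) * r = c * y * c⁻¹ := by group
      rw [h10] at h9
      exact h9
    · intro h8
      have h9 := (P : Subgroup G).mul_mem ((P : Subgroup G).mul_mem hr h8)
        ((P : Subgroup G).inv_mem hr)
      have h10 : r * (c * y * c⁻¹) * r⁻¹ = r * c * y * (r * c)⁻¹ := by group
      rw [h10] at h9
      exact h9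
  exact (h4.symm.trans (h5.symm.trans (h6.trans h7)))

theorem pLF3 : StLF3 := by
  intro G _ _ N hNn hcen hbot ι _ p hp hinj hsync P
  have hfact : ∀ i, Fact (p i).Prime := fun i => ⟨hp i⟩
  have hsurj : Function.Surjective (QuotientGroup.mk' N) := QuotientGroup.mk'_surjective N
  obtain ⟨x, hx⟩ := hsync (fun i => (P i).mapSurjective hsurj)
  obtain ⟨h, rfl⟩ := hsurj x
  -- the normal subgroups `O i` and `L i`
  let O : ι → Subgroup (G ⧸ N) := fun i => ⨅ Q : Sylow (p i) (G ⧸ N), (Q : Subgroup (G ⧸ N))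
  have hO : ∀ i, (O i).Normal := fun i => core_normal _ _
  have hOP : ∀ i, ∀ Q : Sylow (p i) (G ⧸ N), O i ≤ Q := fun i Q => iInf_le _ Q
  have hOp : ∀ i, IsPGroup (p i) (O i) := fun i =>
    ((P i).mapSurjective hsurj).isPGroup'.to_le (hOP i _)
  let L : ι → Subgroup G := fun i => (O i).comap (QuotientGroup.mk' N)
  have hL : ∀ i, (L i).Normal := fun i => (hO i).comap _
  have hmem : ∀ i (y : G), y ∈ L i ↔ QuotientGroup.mk' N y ∈ O i := fun i y => Iff.rfl
  have hPL : ∀ i, ∀ l ∈ L i, ∃ r ∈ P i, ∃ n ∈ N, r * n = l := by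
    intro i l hl
    have h1 : QuotientGroup.mk' N l ∈ ((P i).mapSurjective hsurj : Subgroup (G ⧸ N)) :=
      hOP i _ ((hmem i l).1 hl)
    rw [Sylow.coe_mapSurjective] at h1
    obtain ⟨r, hr, hrl⟩ := h1
    refine ⟨r, hr, r⁻¹ * l, ?_, by group⟩
    rw [← QuotientGroup.eq]
    exact hrl
  choose c hcN hc using fun i => conj_iff (hp i) (P i) N (L i) (hL i) h (hPL i)
  have hcent : ∀ i, ∀ y ∈ L i, (∀ m ∈ N, y * m = m * y) → ∀ Q : Sylow (p i) G, y ∈ Q := by
    intro i y hy hyN Q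
    refine cent_mem (p i) N (L i) hNn (hL i) hcen ?_ y hy hyN Q
    intro l hl
    obtain ⟨k, hk⟩ := hOp i ⟨QuotientGroup.mk' N l, (hmem i l).1 hl⟩
    refine ⟨k, ?_⟩
    have h1 : (QuotientGroup.mk' N l) ^ p i ^ k = 1 := congrArg Subtype.val hk
    rw [← QuotientGroup.ker_mk' N, MonoidHom.mem_ker, map_pow]
    exact h1
  refine ⟨h, fun i => (P i : Subgroup G) ⊓ L i, c, hcN, fun i => ?_, ?_, ?_, ?_, ?_, ?_⟩
  · exact (P i).isPGroup'.to_le inf_le_left
  · intro i j hij y hy z hz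
    have hne : p i ≠ p j := fun hh => hij (hinj hh)
    have hdis : Disjoint (O i) (O j) := IsPGroup.disjoint_of_ne (p i) (p j) hne _ _ (hOp i) (hOp j)
    have hcomm := Subgroup.commute_of_normal_of_disjoint _ _ (hO i) (hO j) hdis _ _
      ((hmem i y).1 hy.2) ((hmem j z).1 hz.2)
    refine ⟨y * z * (z * y)⁻¹, ?_, by group⟩
    rw [← QuotientGroup.ker_mk' N, MonoidHom.mem_ker, map_mul, map_inv, map_mul, map_mul,
      hcomm.eq, mul_inv_cancel]
  · intro n hn i y hy hyP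
    have h1 : QuotientGroup.mk' N y ∈ ((P i).mapSurjective hsurj : Subgroup (G ⧸ N)) := by
      rw [Sylow.coe_mapSurjective]
      exact ⟨y, hy, rfl⟩
    have h2 : QuotientGroup.mk' N ((h * n) * y * (h * n)⁻¹) ∈
        ((P i).mapSurjective hsurj : Subgroup (G ⧸ N)) := by
      rw [Sylow.coe_mapSurjective]
      exact ⟨_, hyP, rfl⟩
    have hn1 : QuotientGroup.mk' N n = 1 := by
      rw [← MonoidHom.mem_ker, QuotientGroup.ker_mk']
      exact hn
    rw [map_mul, map_mul, map_inv, map_mul, hn1, mul_one] at h2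
    have h3 : QuotientGroup.mk' N y ∈ O i := by
      have h4 : QuotientGroup.mk' N y ∈ ((P i).mapSurjective hsurj : Subgroup (G ⧸ N)) ⊓
          MulAut.conj (QuotientGroup.mk' N h)⁻¹ •
            ((P i).mapSurjective hsurj : Subgroup (G ⧸ N)) := by
        refine ⟨h1, ?_⟩
        have h5 := (mem_conj_smul ((P i).mapSurjective hsurj : Subgroup (G ⧸ N))
          (QuotientGroup.mk' N h) (QuotientGroup.mk' N y)).2 h2
        exact h5
      have h6 := hx i
      rw [h6] at h4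
      exact h4
    have hyL : y ∈ L i := (hmem i y).2 h3
    have hy'L : n * y * n⁻¹ ∈ L i := (hL i).conj_mem y hyL n
    have h5 : h * (n * y * n⁻¹) * h⁻¹ ∈ P i := by
      have h6 : h * (n * y * n⁻¹) * h⁻¹ = (h * n) * y * (h * n)⁻¹ := by group
      rw [h6]
      exact hyP
    have h6 := (hc i _ hy'L).1 h5
    have h7 : c i * (n * y * n⁻¹) * (c i)⁻¹ = (c i * n) * y * (c i * n)⁻¹ := by group
    rw [h7] at h6
    exact ⟨⟨hy, hyL⟩, ⟨h6, (hL i).conj_mem y hyL _⟩⟩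
  · intro i y hy hyN Q
    exact hcent i y hy.2 hyN Q
  · intro i y hy
    refine ⟨hy.1, (hmem i y).2 ?_⟩
    have h1 : QuotientGroup.mk' N y = 1 := by
      rw [← MonoidHom.mem_ker, QuotientGroup.ker_mk']
      exact hy.2
    rw [h1]
    exact (O i).one_mem
  · intro i hstar
    obtain ⟨P', P'', hPP⟩ := hstar
    obtain ⟨u, hu⟩ := MulAction.exists_smul_eq G (P i) P'
    obtain ⟨v, hv⟩ := MulAction.exists_smul_eq G (P i) P''
    -- the core
    let C : Subgroup G := ⨅ Q : Sylow (p i) G, (Q : Subgroup G)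
    have hC : C.Normal := core_normal _ _
    have hCp : IsPGroup (p i) C := (P i).isPGroup'.to_le (iInf_le _ (P i))
    have hCN : C ⊓ N = ⊥ := by
      have hn : (C ⊓ N).Normal := inferInstance
      exact hbot (p i) (C ⊓ N) (hp i) inf_le_right (hCp.to_le inf_le_left)
    have hg : ∀ y ∈ P i, (v⁻¹ * u) * y * (v⁻¹ * u)⁻¹ ∈ P i → y ∈ C := by
      intro y hy hgy
      have h1 : u * y * u⁻¹ ∈ (P' : Subgroup G) := by
        rw [← hu]
        exact Subgroup.smul_mem_pointwise_smul _ (MulAut.conj u) _ hy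
      have h2 : u * y * u⁻¹ ∈ (P'' : Subgroup G) := by
        rw [← hv]
        have h3 := Subgroup.smul_mem_pointwise_smul _ (MulAut.conj v) (P i : Subgroup G) hgy
        have h4 : v * ((v⁻¹ * u) * y * (v⁻¹ * u)⁻¹) * v⁻¹ = u * y * u⁻¹ := by group
        rw [← h4]
        exact h3
      have h3 : u * y * u⁻¹ ∈ C := hPP ⟨h1, h2⟩
      have h4 := hC.conj_mem _ h3 u⁻¹
      have h5 : u⁻¹ * (u * y * u⁻¹) * u⁻¹⁻¹ = y := by group
      rw [h5] at h4
      exact h4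
    obtain ⟨d, hdN, hd⟩ := conj_iff (hp i) (P i) N (L i) (hL i) (v⁻¹ * u) (hPL i)
    refine ⟨(c i)⁻¹ * d, N.mul_mem (N.inv_mem (hcN i)) hdN, ?_⟩
    intro y hy z hz hyz m hm
    have h1 : c i * ((c i)⁻¹ * d) = d := by group
    rw [h1] at hyz
    have h2 : d * y * d⁻¹ ∈ L i := (hL i).conj_mem y hy.2 d
    have h3 : z ∈ L i := by
      have h4 := (L i).mul_mem ((L i).inv_mem h2) hyz.2
      have h5 : (d * y * d⁻¹)⁻¹ * (d * y * d⁻¹ * z) = z := by group
      rw [h5] at h4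
      exact h4
    have h4 : z ∈ P i := hcent i z h3 hz (P i)
    have h5 : d * y * d⁻¹ ∈ P i := by
      have h6 := (P i : Subgroup G).mul_mem hyz.1 ((P i : Subgroup G).inv_mem h4)
      have h7 : d * y * d⁻¹ * z * z⁻¹ = d * y * d⁻¹ := by group
      rw [h7] at h6
      exact h6
    have h6 : y ∈ C := hg y hy.1 ((hd y hy.2).2 h5)
    have h7 : y * m * y⁻¹ * m⁻¹ ∈ C ⊓ N := by
      constructor
      · have h8 := hC.conj_mem y⁻¹ (C.inv_mem h6) m
        have h9 := C.mul_mem h6 h8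
        have h10 : y * (m * y⁻¹ * m⁻¹) = y * m * y⁻¹ * m⁻¹ := by group
        rw [h10] at h9
        exact h9
      · exact N.mul_mem (hNn.conj_mem m hm y) (N.inv_mem hm)
    rw [hCN, Subgroup.mem_bot] at h7
    have h8 : y * m * y⁻¹ * m⁻¹ = 1 := h7
    have h9 : y * m = (y * m * y⁻¹ * m⁻¹) * (m * y) := by group
    rw [h9, h8, one_mul]

end Pool.Agent.Helper62.SA.LF3
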