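import Pool.Agent.Helper17.SA.St4
import Pool.Agent.Helper26.SA.M_QA
import Pool.Agent.Helper6.SA.M_QB
import Pool.Agent.Helper40.SA.M_SYL

set_option autoImplicit false

/-! Project SA, module REG (written by helper62, search as in the module O8 of helper13). -/

namespace Pool.Agent.Helper62.SA.REG

open Equiv Pool.Agent.Helper17.SA

/-- level of the common block, for numbers below 8 -/
def D8 (i j : ℕ) : ℕ :=
  bif Nat.beq i j then 0 else bif Nat.beq (i / 2) (j / 2) then 1 else
    bif Nat.beq (i / 4) (j / 4) then 2 else 3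

theorem D8_eq8 : ∀ i j : Fin 8, dd i j = D8 i j := by decide +kernel

theorem D8_eq (m : ℕ) (hm : m ≤ 8) (i j : Fin m) : dd i j = D8 i j :=
  D8_eq8 ⟨i, i.2.trans_le hm⟩ ⟨j, j.2.trans_le hm⟩

/-- compatibility of the images `a, b` of `s, t` with the two structures -/
def EE (xs : List ℕ) (s t a b : ℕ) : Bool :=
  Nat.beq (D8 a b) (D8 s t) &&
    Nat.beq (D8 (xs.getD a 0) (xs.getD b 0)) (D8 (xs.getD s 0) (xs.getD t 0))

/-- all values in `L` (images of `L.length - 1, ..., 0`) are compatible with the value `v` for `t` -/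
def okE (xs : List ℕ) (t v : ℕ) : List ℕ → Bool
  | [] => true
  | w :: L => EE xs L.length t w v && okE xs t v L

/-- the search -/
def srch (m : ℕ) (xs bd : List ℕ) : ℕ → List ℕ → Bool
  | 0, L => L == (List.range m).reverse || L == bd
  | f + 1, L => (List.range m).all fun v => !(okE xs L.length v L) || srch m xs bd f (v :: L)

/-- the values of `y` at `t - 1, ..., 0` -/
def vals (y : ℕ → ℕ) : ℕ → List ℕ
  | 0 => []
  | t + 1 => y t :: vals y t

theorem vals_length (y : ℕ → ℕ) (t : ℕ) : (vals y t).length = t := by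
  induction t with
  | zero => rfl
  | succ n ih => simp [vals, ih]

theorem okE_vals (xs : List ℕ) (y : ℕ → ℕ) (u : ℕ) (hE : ∀ s < u, EE xs s u (y s) (y u) = true) :
    ∀ t ≤ u, okE xs u (y u) (vals y t) = true := by
  intro t
  induction t with
  | zero => intro _; rfl
  | succ n ih =>
    intro hn
    simp only [vals, okE, vals_length, Bool.and_eq_true]
    exact ⟨hE n (by omega), ih (by omega)⟩

theorem srch_sound (m : ℕ) (xs bd : List ℕ) (y : ℕ → ℕ) (hlt : ∀ t < m, y t < m)
    (hE : ∀ s t, s < t → t < m → EE xs s t (y s) (y t) = true) :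
    ∀ f t, t + f = m → srch m xs bd f (vals y t) = true →
      vals y m = (List.range m).reverse ∨ vals y m = bd := by
  intro f
  induction f with
  | zero =>
    intro t ht h
    have : t = m := by omega
    subst this
    simpa [srch] using h
  | succ n ih =>
    intro t ht h
    simp only [srch, List.all_eq_true, List.mem_range, vals_length] at h
    have h1 := h (y t) (hlt t (by omega))
    have h2 : okE xs t (y t) (vals y t) = true :=
      okE_vals xs y t (fun s hs => hE s t hs (by omega)) t le_rfl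
    rw [h2] at h1
    simp only [Bool.not_true, Bool.false_or] at h1
    exact ih (t + 1) (by omega) h1

/-- the values of a permutation as a function on `ℕ` -/
def fn {m : ℕ} (y : Perm (Fin m)) (t : ℕ) : ℕ := if h : t < m then (y ⟨t, h⟩ : ℕ) else 0

theorem fn_eq {m : ℕ} (y : Perm (Fin m)) (i : Fin m) : fn y i = (y i : ℕ) := by
  simp only [fn, i.2, dif_pos]

theorem key (m : ℕ) (hm : m ≤ 8) (x : Perm (Fin m)) (xs bd : List ℕ)
    (hx : ∀ i : Fin m, ((x i : Fin m) : ℕ) = xs.getD i 0) (hs : srch m xs bd m [] = true)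
    (y : Perm (Fin m)) (hy : y ∈ Q0 m) (hy2 : x * y * x⁻¹ ∈ Q0 m) :
    vals (fn y) m = (List.range m).reverse ∨ vals (fn y) m = bd := by
  have h1 : ∀ i j : Fin m, dd (y i) (y j) = dd i j := hy
  have h2 : ∀ i j : Fin m, dd (x (y i)) (x (y j)) = dd (x i) (x j) := by
    intro i j
    have := hy2 (x i) (x j)
    simpa [Perm.mul_apply] using this
  have hE : ∀ s t, s < t → t < m → EE xs s t (fn y s) (fn y t) = true := by
    intro s t hst ht
    obtain ⟨i, rfl⟩ : ∃ i : Fin m, (i : ℕ) = s := ⟨⟨s, hst.trans ht⟩, rfl⟩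
    obtain ⟨j, rfl⟩ : ∃ j : Fin m, (j : ℕ) = t := ⟨⟨t, ht⟩, rfl⟩
    rw [fn_eq, fn_eq]
    simp only [EE, Bool.and_eq_true, Nat.beq_eq]
    refine ⟨?_, ?_⟩
    · rw [← D8_eq m hm, ← D8_eq m hm]; exact h1 i j
    · rw [← hx, ← hx, ← hx, ← hx, ← D8_eq m hm, ← D8_eq m hm]; exact h2 i j
  have hlt : ∀ t < m, fn y t < m := by
    intro t ht
    have := fn_eq y ⟨t, ht⟩
    simp only at this
    rw [this]
    exact (y ⟨t, ht⟩).2
  exact srch_sound m xs bd (fn y) hlt hE m 0 (by omega) hs

/-- the even elements of the tree group -/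
def VV (m : ℕ) : Subgroup (alternatingGroup (Fin m)) :=
  (Q0 m).comap (alternatingGroup (Fin m)).subtype

theorem mem_VV (m : ℕ) (y : alternatingGroup (Fin m)) : y ∈ VV m ↔ (y : Perm (Fin m)) ∈ Q0 m :=
  Iff.rfl

theorem card_VV (m : ℕ) (s : Perm (Fin m)) (hs : s ∈ Q0 m) (hsg : Perm.sign s = -1) :
    Nat.card (Q0 m) = 2 * Nat.card (VV m) := by
  let f : Q0 m →* ℤˣ := Perm.sign.comp (Q0 m).subtype
  have h1 : Function.Surjective f := by
    intro u
    rcases Int.units_eq_one_or u with rfl | rfl
    · exact ⟨1, map_one f⟩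
    · exact ⟨⟨s, hs⟩, hsg⟩
  have h2 : f.ker.index = 2 := by
    rw [Subgroup.index_ker, MonoidHom.range_eq_top.2 h1, Subgroup.card_top,
      Nat.card_eq_fintype_card]
    rfl
  have h3 := Subgroup.card_mul_index f.ker
  rw [h2] at h3
  have h4 : Nat.card (VV m) = Nat.card f.ker := by
    apply Nat.card_congr
    refine ⟨fun y => ⟨⟨(y.1 : Perm (Fin m)), y.2⟩, ?_⟩, fun z => ⟨⟨(z.1 : Perm (Fin m)), ?_⟩, ?_⟩,
      ?_, ?_⟩
    · show Perm.sign (y.1 : Perm (Fin m)) = 1
      exact Perm.mem_alternatingGroup.1 y.1.2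
    · rw [Perm.mem_alternatingGroup]
      exact z.2
    · rw [mem_VV]
      exact z.1.2
    · intro y
      rfl
    · intro z
      rfl
  omega

theorem kSYL : StSYL := Pool.Agent.Helper40.SA.pSYL Pool.Agent.Helper26.SA.pQA
  Pool.Agent.Helper6.SA.pQB

/-- the assembly for one degree -/
theorem reg (m k : ℕ) (hm : m ≤ 8) (hm2 : 2 ≤ m) (x : Perm (Fin m)) (hxs : Perm.sign x = 1)
    (xs bd : List ℕ) (hx : ∀ i : Fin m, ((x i : Fin m) : ℕ) = xs.getD i 0)
    (hs : srch m xs bd m [] = true)
    (s : Perm (Fin m)) (hsQ : s ∈ Q0 m) (hsg : Perm.sign s = -1)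
    (hk : padicValNat 2 m.factorial = k + 1) (hk2 : padicValNat 2 (m.factorial / 2) = k)
    (h1 : ∀ y : Perm (Fin m), vals (fn y) m = (List.range m).reverse → y = 1)
    (h2 : ∀ y : Perm (Fin m), vals (fn y) m = bd → Perm.sign y = -1) :
    ∃ (V : Sylow 2 (alternatingGroup (Fin m)))
      (n0 : alternatingGroup (Fin m)), Rg (V : Subgroup (alternatingGroup (Fin m))) V n0 := by
  have : Fact (Nat.Prime 2) := ⟨Nat.prime_two⟩
  have hQ := (kSYL m default).2.1
  rw [hk] at hQ
  have hV := card_VV m s hsQ hsg
  rw [hQ, pow_succ] at hV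
  have hV2 : Nat.card (VV m) = 2 ^ k := by omega
  have hA : Nat.card (alternatingGroup (Fin m)) = m.factorial / 2 := by
    have : Nontrivial (Fin m) := Fin.nontrivial_iff_two_le.2 hm2
    have h := nat_card_alternatingGroup (α := Fin m)
    rw [Nat.card_fin] at h
    exact h
  have hfac : (Nat.card (alternatingGroup (Fin m))).factorization 2 = k := by
    rw [hA, Nat.factorization_def _ Nat.prime_two, hk2]
  refine ⟨Sylow.ofCard (VV m) (by rw [hV2, hfac]), ⟨x, Perm.mem_alternatingGroup.2 hxs⟩, ?_⟩
  intro y hy hy2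
  have hy3 : (y : Perm (Fin m)) ∈ Q0 m := hy
  have hy4 : x * (y : Perm (Fin m)) * x⁻¹ ∈ Q0 m := hy2
  rcases key m hm x xs bd hx hs y hy3 hy4 with h | h
  · exact Subtype.ext (h1 y h)
  · have h5 := h2 y h
    have h6 := Perm.mem_alternatingGroup.1 y.2
    rw [h6] at h5
    exact absurd h5 (by decide)

/-- the permutation for degree 5 -/
def x5 : Perm (Fin 5) where
  toFun := ![0, 2, 1, 4, 3]
  invFun := ![0, 2, 1, 4, 3]
  left_inv := by decide
  right_inv := by decide

/-- the permutation for degree 6 -/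
def x6 : Perm (Fin 6) where
  toFun := ![0, 1, 3, 4, 2, 5]
  invFun := ![0, 1, 4, 2, 3, 5]
  left_inv := by decide
  right_inv := by decide

/-- the permutation for degree 8 -/
def x8 : Perm (Fin 8) where
  toFun := ![6, 4, 3, 7, 2, 5, 1, 0]
  invFun := ![7, 6, 4, 2, 1, 5, 0, 3]
  left_inv := by decide
  right_inv := by decide

theorem swap_mem5 : (swap (0 : Fin 5) 1) ∈ Q0 5 := by
  show ∀ i j : Fin 5, dd (swap (0 : Fin 5) 1 i) (swap (0 : Fin 5) 1 j) = dd i j
  simp only [D8_eq 5 (by norm_num)]
  decide +kernel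

theorem swap_mem6 : (swap (0 : Fin 6) 1) ∈ Q0 6 := by
  show ∀ i j : Fin 6, dd (swap (0 : Fin 6) 1 i) (swap (0 : Fin 6) 1 j) = dd i j
  simp only [D8_eq 6 (by norm_num)]
  decide +kernel

theorem swap_mem8 : (swap (0 : Fin 8) 1) ∈ Q0 8 := by
  show ∀ i j : Fin 8, dd (swap (0 : Fin 8) 1 i) (swap (0 : Fin 8) 1 j) = dd i j
  simp only [D8_eq 8 (by norm_num)]
  decide +kernel

theorem val5 : padicValNat 2 (Nat.factorial 5) = 2 + 1 := by
  have : Nat.factorial 5 = 2 ^ 3 * 15 := by decide
  rw [this, padicValNat.mul (by norm_num) (by norm_num), padicValNat.prime_pow,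
    padicValNat.eq_zero_of_not_dvd (by norm_num)]

theorem val5' : padicValNat 2 (Nat.factorial 5 / 2) = 2 := by
  have : Nat.factorial 5 / 2 = 2 ^ 2 * 15 := by decide
  rw [this, padicValNat.mul (by norm_num) (by norm_num), padicValNat.prime_pow,
    padicValNat.eq_zero_of_not_dvd (by norm_num)]

theorem val6 : padicValNat 2 (Nat.factorial 6) = 3 + 1 := by
  have : Nat.factorial 6 = 2 ^ 4 * 45 := by decide
  rw [this, padicValNat.mul (by norm_num) (by norm_num), padicValNat.prime_pow,
    padicValNat.eq_zero_of_not_dvd (by norm_num)]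

theorem val6' : padicValNat 2 (Nat.factorial 6 / 2) = 3 := by
  have : Nat.factorial 6 / 2 = 2 ^ 3 * 45 := by decide
  rw [this, padicValNat.mul (by norm_num) (by norm_num), padicValNat.prime_pow,
    padicValNat.eq_zero_of_not_dvd (by norm_num)]

theorem val8 : padicValNat 2 (Nat.factorial 8) = 6 + 1 := by
  have : Nat.factorial 8 = 2 ^ 7 * 315 := by decide +kernel
  rw [this, padicValNat.mul (by norm_num) (by norm_num), padicValNat.prime_pow,
    padicValNat.eq_zero_of_not_dvd (by norm_num)]

theorem val8' : padicValNat 2 (Nat.factorial 8 / 2) = 6 := by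
  have : Nat.factorial 8 / 2 = 2 ^ 6 * 315 := by decide +kernel
  rw [this, padicValNat.mul (by norm_num) (by norm_num), padicValNat.prime_pow,
    padicValNat.eq_zero_of_not_dvd (by norm_num)]

theorem pREG : StREG := by
  rintro m (rfl | rfl | rfl)
  · refine reg 5 2 (by norm_num) (by norm_num) x5 (by decide +kernel) [0, 2, 1, 4, 3] [0] (by decide)
      (by decide +kernel) (swap 0 1) swap_mem5 (Perm.sign_swap (by decide)) val5 val5' ?_ ?_
    · intro y h
      have hr : (List.range 5).reverse = [4, 3, 2, 1, 0] := by decide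
      rw [hr] at h
      simp only [vals, List.cons.injEq, and_true] at h
      obtain ⟨e4, e3, e2, e1, e0⟩ := h
      apply Equiv.ext
      intro i
      apply Fin.ext
      rw [Perm.one_apply, ← fn_eq]
      fin_cases i
      · exact e0
      · exact e1
      · exact e2
      · exact e3
      · exact e4
    · intro y h
      simp [vals] at h
  · refine reg 6 3 (by norm_num) (by norm_num) x6 (by decide +kernel) [0, 1, 3, 4, 2, 5]
      [5, 4, 3, 2, 0, 1] (by decide)
      (by decide +kernel) (swap 0 1) swap_mem6 (Perm.sign_swap (by decide)) val6 val6' ?_ ?_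
    · intro y h
      have hr : (List.range 6).reverse = [5, 4, 3, 2, 1, 0] := by decide
      rw [hr] at h
      simp only [vals, List.cons.injEq, and_true] at h
      obtain ⟨e5, e4, e3, e2, e1, e0⟩ := h
      apply Equiv.ext
      intro i
      apply Fin.ext
      rw [Perm.one_apply, ← fn_eq]
      fin_cases i
      · exact e0
      · exact e1
      · exact e2
      · exact e3
      · exact e4
      · exact e5
    · intro y h
      simp only [vals, List.cons.injEq, and_true] at h
      obtain ⟨e5, e4, e3, e2, e1, e0⟩ := h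
      have hy : y = swap 0 1 := by
        apply Equiv.ext
        intro i
        apply Fin.ext
        rw [← fn_eq]
        fin_cases i
        · exact e0
        · exact e1
        · exact e2
        · exact e3
        · exact e4
        · exact e5
      rw [hy]
      exact Perm.sign_swap (by decide)
  · refine reg 8 6 (by norm_num) (by norm_num) x8 (by decide +kernel) [6, 4, 3, 7, 2, 5, 1, 0]
      [6, 7, 5, 4, 3, 2, 1, 0] (by decide)
      (by decide +kernel) (swap 0 1) swap_mem8 (Perm.sign_swap (by decide)) val8 val8' ?_ ?_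
    · intro y h
      have hr : (List.range 8).reverse = [7, 6, 5, 4, 3, 2, 1, 0] := by decide
      rw [hr] at h
      simp only [vals, List.cons.injEq, and_true] at h
      obtain ⟨e7, e6, e5, e4, e3, e2, e1, e0⟩ := h
      apply Equiv.ext
      intro i
      apply Fin.ext
      rw [Perm.one_apply, ← fn_eq]
      fin_cases i
      · exact e0
      · exact e1
      · exact e2
      · exact e3
      · exact e4
      · exact e5
      · exact e6
      · exact e7
    · intro y h
      simp only [vals, List.cons.injEq, and_true] at h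
      obtain ⟨e7, e6, e5, e4, e3, e2, e1, e0⟩ := h
      have hy : y = swap 6 7 := by
        apply Equiv.ext
        intro i
        apply Fin.ext
        rw [← fn_eq]
        fin_cases i
        · exact e0
        · exact e1
        · exact e2
        · exact e3
        · exact e4
        · exact e5
        · exact e6
        · exact e7
      rw [hy]
      exact Perm.sign_swap (by decide)

end Pool.Agent.Helper62.SA.REG
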